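import Pool.Agent.R270.Renorm
import Pool.Agent.R270.WeakNhd
import Pool.Agent.Results.MP_c89e4d_an.CcsSuper

/-!
# An extreme Delta-point which is neither a ccs nor a super Delta-point
-/

namespace Pool.Agent.Results.MP_0f3a14_an.ExtremeDelta

open Set Filter Topology
open scoped OnePoint

universe w

/-- `S` is a slice `{y ∈ B_X : Re f(y) > ‖f‖ - α}` of the closed unit ball of `X`, with `f ≠ 0`
and `α > 0`. -/
def IsSlice (𝕜 : Type*) {X : Type*} [RCLike 𝕜] [NormedAddCommGroup X] [NormedSpace 𝕜 X]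
    (S : Set X) : Prop :=
  ∃ (f : StrongDual 𝕜 X) (α : ℝ), f ≠ 0 ∧ 0 < α ∧
    S = {y : X | ‖y‖ ≤ 1 ∧ ‖f‖ - α < RCLike.re (f y)}

/-- `C` is a convex combination of slices of the closed unit ball of `X`. -/
def IsCcs (𝕜 : Type*) {X : Type*} [RCLike 𝕜] [NormedAddCommGroup X] [NormedSpace 𝕜 X]
    (C : Set X) : Prop :=
  ∃ (n : ℕ) (lam : Fin n → ℝ) (S : Fin n → Set X), (∀ i, IsSlice 𝕜 (S i)) ∧
    (∀ i, 0 < lam i) ∧ ∑ i, lam i = 1 ∧
    C = {z | ∃ y : Fin n → X, (∀ i, y i ∈ S i) ∧ z = ∑ i, (lam i : 𝕜) • y i}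

/-- `x` is a Delta-point of `X`. -/
def IsDeltaPoint (𝕜 : Type*) {X : Type*} [RCLike 𝕜] [NormedAddCommGroup X] [NormedSpace 𝕜 X]
    (x : X) : Prop :=
  ‖x‖ = 1 ∧ ∀ S : Set X, IsSlice 𝕜 S → x ∈ S → sSup ((fun y => ‖x - y‖) '' S) = 2

/-- `x` is a super Delta-point of `X`. -/
def IsSuperDeltaPoint (𝕜 : Type*) {X : Type*} [RCLike 𝕜] [NormedAddCommGroup X] [NormedSpace 𝕜 X]
    (x : X) : Prop :=
  ‖x‖ = 1 ∧ ∀ W : Set X,
    (∃ O : Set (WeakSpace 𝕜 X), IsOpen O ∧ W = Metric.closedBall 0 1 ∩ toWeakSpace 𝕜 X ⁻¹' O) →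
    x ∈ W → sSup ((fun y => ‖x - y‖) '' W) = 2

/-- `x` is a ccs Delta-point of `X`. -/
def IsCcsDeltaPoint (𝕜 : Type*) {X : Type*} [RCLike 𝕜] [NormedAddCommGroup X] [NormedSpace 𝕜 X]
    (x : X) : Prop :=
  ‖x‖ = 1 ∧ ∀ C : Set X, IsCcs 𝕜 C → x ∈ C → sSup ((fun y => ‖x - y‖) '' C) = 2

/-- `x` is an extreme point of the closed unit ball of `X`. -/
def IsExtremePoint (𝕜 : Type*) {X : Type*} [RCLike 𝕜] [NormedAddCommGroup X] [NormedSpace 𝕜 X]
    (x : X) : Prop :=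
  ‖x‖ ≤ 1 ∧ ∀ (y z : X) (t : ℝ), ‖y‖ ≤ 1 → ‖z‖ ≤ 1 → 0 < t → t < 1 →
    x = (t : 𝕜) • y + ((1 - t : ℝ) : 𝕜) • z → y = x ∧ z = x

section ccs

variable {𝕜 X : Type*} [RCLike 𝕜] [NormedAddCommGroup X] [NormedSpace 𝕜 X]

/-- Every ccs Delta-point is a super Delta-point (the answer to the question of
`MP_c89e4d_an`). -/
lemma IsCcsDeltaPoint.isSuper {x : X} (hx : IsCcsDeltaPoint 𝕜 x) : IsSuperDeltaPoint 𝕜 x := by
  have : MP_c89e4d_an.CcsSuper.IsCcsDeltaPoint 𝕜 x := by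
    refine ⟨hx.1, fun C hC => hx.2 C ?_⟩
    obtain ⟨n, lam, S, -, hS, hlam, hsum, rfl⟩ := hC
    refine ⟨n, lam, S, fun i => ?_, hlam, hsum, rfl⟩
    obtain ⟨f, α, hf, hα, hSi⟩ := hS i
    refine ⟨f, α, ?_, hα, ?_⟩
    · rintro rfl; simp at hf
    · rw [hSi, hf]
  exact MP_c89e4d_an.CcsSuper.result 𝕜 X x this

end ccs

section example_space

variable (𝕜 : Type w) [RCLike 𝕜]

/-- Pairs of convergent scalar sequences. -/
abbrev Y : Type w := C(OnePoint ℕ, 𝕜) × C(OnePoint ℕ, 𝕜)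

variable {𝕜}

/-- Coordinates of the first sequence. -/
noncomputable def a (k : OnePoint ℕ) : StrongDual 𝕜 (Y 𝕜) :=
  (ContinuousMap.evalCLM 𝕜 k).comp (ContinuousLinearMap.fst 𝕜 _ _)

/-- Coordinates of the second sequence. -/
noncomputable def b (k : OnePoint ℕ) : StrongDual 𝕜 (Y 𝕜) :=
  (ContinuousMap.evalCLM 𝕜 k).comp (ContinuousLinearMap.snd 𝕜 _ _)

@[simp] lemma a_apply (k : OnePoint ℕ) (y : Y 𝕜) : a k y = y.1 k := rfl
@[simp] lemma b_apply (k : OnePoint ℕ) (y : Y 𝕜) : b k y = y.2 k := rfl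

variable (𝕜)

/-- The index set of the norming family. -/
inductive Idx : Type w
  | u (n : OnePoint ℕ) : Idx
  | v (n : OnePoint ℕ) : Idx
  | p (n : ℕ) : Idx
  | q (n : ℕ) : Idx
  | r (j : ℕ) (θ : 𝕜) (hθ : ‖θ‖ = 1) : Idx
  | s (θ : 𝕜) (hθ : ‖θ‖ = 1) : Idx

variable {𝕜}

/-- The norming family. -/
noncomputable def φ : Idx 𝕜 → StrongDual 𝕜 (Y 𝕜)
  | .u n => a n
  | .v n => b n
  | .p n => a ∞ - a (2 * n : ℕ) - b (0 : ℕ)
  | .q n => a ∞ - a (2 * n + 1 : ℕ) + b (0 : ℕ)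
  | .r j θ _ => a ∞ + θ • (b (j : ℕ) - b (j + 1 : ℕ) -
      (1 / 2 : 𝕜) • (a (2 * j + 1 : ℕ) - a (2 * j : ℕ)))
  | .s θ _ => a ∞ + θ • b ∞

lemma norm_a_le (k : OnePoint ℕ) (y : Y 𝕜) : ‖a k y‖ ≤ ‖y‖ :=
  (ContinuousMap.norm_coe_le_norm y.1 k).trans (norm_fst_le y)

lemma norm_b_le (k : OnePoint ℕ) (y : Y 𝕜) : ‖b k y‖ ≤ ‖y‖ :=
  (ContinuousMap.norm_coe_le_norm y.2 k).trans (norm_snd_le y)

lemma norm_half : ‖(1 / 2 : 𝕜)‖ = 1 / 2 := by
  rw [norm_div, norm_one, RCLike.norm_ofNat]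

lemma norm_φ_le (i : Idx 𝕜) (y : Y 𝕜) : ‖φ i y‖ ≤ 4 * ‖y‖ := by
  have h0 := norm_nonneg y
  have ha : ∀ k, ‖a k y‖ ≤ ‖y‖ := fun k => norm_a_le k y
  have hb : ∀ k, ‖b k y‖ ≤ ‖y‖ := fun k => norm_b_le k y
  cases i with
  | u n => exact (ha n).trans (by linarith)
  | v n => exact (hb n).trans (by linarith)
  | p n =>
    simp only [φ, sub_apply]
    calc ‖a ∞ y - a (2 * n : ℕ) y - b (0 : ℕ) y‖
        ≤ ‖a ∞ y‖ + ‖a (2 * n : ℕ) y‖ + ‖b (0 : ℕ) y‖ := by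
          refine (norm_sub_le _ _).trans ?_
          gcongr
          exact norm_sub_le _ _
      _ ≤ 4 * ‖y‖ := by linarith [ha ∞, ha (2 * n : ℕ), hb (0 : ℕ)]
  | q n =>
    simp only [φ, sub_apply, add_apply]
    calc ‖a ∞ y - a (2 * n + 1 : ℕ) y + b (0 : ℕ) y‖
        ≤ ‖a ∞ y‖ + ‖a (2 * n + 1 : ℕ) y‖ + ‖b (0 : ℕ) y‖ := by
          refine (norm_add_le _ _).trans ?_
          gcongr
          exact norm_sub_le _ _
      _ ≤ 4 * ‖y‖ := by linarith [ha ∞, ha (2 * n + 1 : ℕ), hb (0 : ℕ)]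
  | r j θ hθ =>
    simp only [φ, sub_apply, add_apply, smul_apply, smul_eq_mul]
    calc ‖a ∞ y + θ * (b (j : ℕ) y - b (j + 1 : ℕ) y -
          1 / 2 * (a (2 * j + 1 : ℕ) y - a (2 * j : ℕ) y))‖
        ≤ ‖a ∞ y‖ + (‖b (j : ℕ) y‖ + ‖b (j + 1 : ℕ) y‖ +
          1 / 2 * (‖a (2 * j + 1 : ℕ) y‖ + ‖a (2 * j : ℕ) y‖)) := by
          refine (norm_add_le _ _).trans ?_
          rw [norm_mul, hθ, one_mul]
          gcongr
          refine (norm_sub_le _ _).trans ?_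
          rw [norm_mul, norm_half]
          gcongr
          · exact norm_sub_le _ _
          · exact norm_sub_le _ _
      _ ≤ 4 * ‖y‖ := by
        linarith [ha ∞, ha (2 * j + 1 : ℕ), ha (2 * j : ℕ), hb (j : ℕ), hb (j + 1 : ℕ)]
  | s θ hθ =>
    simp only [φ, add_apply, smul_apply, smul_eq_mul]
    calc ‖a ∞ y + θ * b ∞ y‖ ≤ ‖a ∞ y‖ + ‖b ∞ y‖ := by
          refine (norm_add_le _ _).trans ?_
          rw [norm_mul, hθ, one_mul]
      _ ≤ 4 * ‖y‖ := by linarith [ha ∞, hb ∞]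

variable (𝕜) in
/-- The isometric model. -/
noncomputable abbrev J : Y 𝕜 →L[𝕜] lp (fun _ : Idx 𝕜 => 𝕜) ⊤ :=
  R270.Renorm.J (φ (𝕜 := 𝕜)) 4 norm_φ_le (by norm_num)

variable (𝕜) in
/-- The example. -/
noncomputable abbrev X : Submodule 𝕜 (lp (fun _ : Idx 𝕜 => 𝕜) ⊤) :=
  LinearMap.range (J 𝕜).toLinearMap

instance : CompleteSpace (X 𝕜) := by
  refine R270.Renorm.completeSpace_range (φ (𝕜 := 𝕜)) 4 norm_φ_le (by norm_num) ?_
  intro y M hM h
  rw [Prod.norm_def]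
  refine max_le ?_ ?_
  · exact (ContinuousMap.norm_le _ hM).2 fun k => h (.u k)
  · exact (ContinuousMap.norm_le _ hM).2 fun k => h (.v k)

/-- The point of `X` defined by a pair of sequences. -/
noncomputable def mk (y : Y 𝕜) : X 𝕜 := ⟨J 𝕜 y, ⟨y, rfl⟩⟩

lemma mk_surj (z : X 𝕜) : ∃ y : Y 𝕜, mk y = z := by
  obtain ⟨_, ⟨y, rfl⟩⟩ := z
  exact ⟨y, rfl⟩

lemma mk_sub (y z : Y 𝕜) : mk (y - z) = mk y - mk z := by
  apply Subtype.ext
  simp [mk]

lemma mk_add (y z : Y 𝕜) : mk (y + z) = mk y + mk z := by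
  apply Subtype.ext
  simp [mk]

lemma mk_smul (c : 𝕜) (y : Y 𝕜) : mk (c • y) = c • mk y := by
  apply Subtype.ext
  simp [mk]

lemma mk_inj {y z : Y 𝕜} (h : mk y = mk z) : y = z := by
  have h1 : ∀ i, φ i y = φ i z := by
    intro i
    have := congrArg (fun w : X 𝕜 => (w : lp (fun _ : Idx 𝕜 => 𝕜) ⊤) i) h
    exact this
  refine Prod.ext ?_ ?_
  · ext k; exact h1 (.u k)
  · ext k; exact h1 (.v k)

lemma norm_mk (y : Y 𝕜) : ‖mk y‖ = ‖J 𝕜 y‖ := rfl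

lemma norm_mk_le {M : ℝ} (hM : 0 ≤ M) {y : Y 𝕜} (h : ∀ i, ‖φ i y‖ ≤ M) : ‖mk y‖ ≤ M :=
  R270.Renorm.norm_J_le (φ (𝕜 := 𝕜)) 4 norm_φ_le (by norm_num) hM h

lemma le_norm_mk (y : Y 𝕜) (i : Idx 𝕜) : ‖φ i y‖ ≤ ‖mk y‖ :=
  R270.Renorm.le_norm_J (φ (𝕜 := 𝕜)) 4 norm_φ_le (by norm_num) y i

lemma exists_theta (c d : 𝕜) : ∃ θ : 𝕜, ‖θ‖ = 1 ∧ ‖c + θ * d‖ = ‖c‖ + ‖d‖ := by
  obtain ⟨c1, hc1, hc2⟩ := RCLike.exists_norm_mul_eq_self c
  obtain ⟨d1, hd1, hd2⟩ := RCLike.exists_norm_eq_mul_self d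
  refine ⟨c1 * d1, by rw [norm_mul, hc1, hd1, one_mul], ?_⟩
  have : c + c1 * d1 * d = c1 * ((‖c‖ + ‖d‖ : ℝ) : 𝕜) := by
    rw [RCLike.ofReal_add, mul_add, hc2, mul_assoc, ← hd2]
  rw [this, norm_mul, hc1, one_mul, RCLike.norm_ofReal, abs_of_nonneg (by positivity)]

/-- The expression in the fifth group of functionals. -/
noncomputable def D (j : ℕ) (y : Y 𝕜) : 𝕜 :=
  y.2 (j : ℕ) - y.2 (j + 1 : ℕ) - 1 / 2 * (y.1 (2 * j + 1 : ℕ) - y.1 (2 * j : ℕ))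

lemma r_bound (y : Y 𝕜) (j : ℕ) : ‖y.1 ∞‖ + ‖D j y‖ ≤ ‖mk y‖ := by
  obtain ⟨θ, hθ, h⟩ := exists_theta (y.1 ∞) (D j y)
  rw [← h]
  exact le_norm_mk y (.r j θ hθ)

lemma s_bound (y : Y 𝕜) : ‖y.1 ∞‖ + ‖y.2 ∞‖ ≤ ‖mk y‖ := by
  obtain ⟨θ, hθ, h⟩ := exists_theta (y.1 ∞) (y.2 ∞)
  rw [← h]
  exact le_norm_mk y (.s θ hθ)

/-- A sufficient condition for a bound on the norm. -/
lemma norm_mk_le' {M : ℝ} (hM : 0 ≤ M) {y : Y 𝕜} (hu : ∀ k, ‖y.1 k‖ ≤ M) (hv : ∀ k, ‖y.2 k‖ ≤ M)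
    (hp : ∀ n : ℕ, ‖y.1 ∞ - y.1 (2 * n : ℕ) - y.2 (0 : ℕ)‖ ≤ M)
    (hq : ∀ n : ℕ, ‖y.1 ∞ - y.1 (2 * n + 1 : ℕ) + y.2 (0 : ℕ)‖ ≤ M)
    (hr : ∀ j : ℕ, ‖y.1 ∞‖ + ‖D j y‖ ≤ M) (hs : ‖y.1 ∞‖ + ‖y.2 ∞‖ ≤ M) : ‖mk y‖ ≤ M := by
  refine norm_mk_le hM fun i => ?_
  cases i with
  | u n => exact hu n
  | v n => exact hv n
  | p n => exact hp n
  | q n => exact hq n
  | r j θ hθ =>
    have : φ (.r j θ hθ) y = y.1 ∞ + θ * D j y := rfl
    rw [this]
    calc ‖y.1 ∞ + θ * D j y‖ ≤ ‖y.1 ∞‖ + ‖θ * D j y‖ := norm_add_le _ _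
      _ = ‖y.1 ∞‖ + ‖D j y‖ := by rw [norm_mul, hθ, one_mul]
      _ ≤ M := hr j
  | s θ hθ =>
    have : φ (.s θ hθ) y = y.1 ∞ + θ * y.2 ∞ := rfl
    rw [this]
    calc ‖y.1 ∞ + θ * y.2 ∞‖ ≤ ‖y.1 ∞‖ + ‖θ * y.2 ∞‖ := norm_add_le _ _
      _ = ‖y.1 ∞‖ + ‖y.2 ∞‖ := by rw [norm_mul, hθ, one_mul]
      _ ≤ M := hs

/-- The indicator function of a finite set of integers. -/
noncomputable def E (A : Finset ℕ) : C(OnePoint ℕ, 𝕜) :=
  OnePoint.continuousMapMkNat (fun k => if k ∈ A then 1 else 0) 0 (by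
    refine tendsto_const_nhds.congr' ?_
    filter_upwards [eventually_gt_atTop (A.sup id)] with k hk
    rw [if_neg]
    intro hkA
    exact absurd (Finset.le_sup (f := id) hkA) (not_le.2 hk))

@[simp] lemma E_coe (A : Finset ℕ) (k : ℕ) : E (𝕜 := 𝕜) A (k : OnePoint ℕ) = if k ∈ A then 1 else 0 :=
  rfl

@[simp] lemma E_infty (A : Finset ℕ) : E (𝕜 := 𝕜) A ∞ = 0 := rfl

/-- The distinguished point. -/
noncomputable def x0 : Y 𝕜 := (1, 0)

/-- The first family of points. -/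
noncomputable def yp (n : ℕ) : Y 𝕜 := (1 - (2 : 𝕜) • E {2 * n}, E (Finset.range (n + 1)))

/-- The second family of points. -/
noncomputable def ym (n : ℕ) : Y 𝕜 := (1 - (2 : 𝕜) • E {2 * n + 1}, - E (Finset.range (n + 1)))

lemma norm_sign (P : Prop) [Decidable P] : ‖(1 : 𝕜) - 2 * (if P then 1 else 0)‖ ≤ 1 := by
  split_ifs
  · norm_num
  · norm_num

lemma norm_x0 : ‖mk (x0 : Y 𝕜)‖ = 1 := by
  refine le_antisymm ?_ ?_
  · refine norm_mk_le' zero_le_one ?_ ?_ ?_ ?_ ?_ ?_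
    · intro k; simp [x0]
    · intro k; simp [x0]
    · intro k; simp [x0]
    · intro k; simp [x0]
    · intro k; simp [x0, D]
    · simp [x0]
  · have := s_bound (x0 : Y 𝕜)
    simpa [x0] using this

lemma onePoint_cases {P : OnePoint ℕ → Prop} (h0 : P ∞) (h1 : ∀ k : ℕ, P k) : ∀ k, P k :=
  fun k => OnePoint.rec h0 h1 k

lemma norm_yp (n : ℕ) : ‖mk (yp n : Y 𝕜)‖ ≤ 1 := by
  refine norm_mk_le' zero_le_one ?_ ?_ ?_ ?_ ?_ ?_
  · refine onePoint_cases ?_ ?_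
    · simp [yp]
    · intro k
      simp only [yp, ContinuousMap.sub_apply, ContinuousMap.one_apply, ContinuousMap.smul_apply,
        E_coe, smul_eq_mul]
      exact norm_sign _
  · refine onePoint_cases ?_ ?_
    · simp [yp]
    · intro k
      simp only [yp, E_coe]
      split_ifs <;> simp
  · intro m
    simp only [yp, ContinuousMap.sub_apply, ContinuousMap.one_apply, ContinuousMap.smul_apply,
      E_coe, E_infty, smul_eq_mul]
    rw [if_pos (show 0 ∈ Finset.range (n + 1) by simp)]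
    split_ifs <;> norm_num
  · intro m
    simp only [yp, ContinuousMap.sub_apply, ContinuousMap.one_apply, ContinuousMap.smul_apply,
      E_coe, E_infty, smul_eq_mul]
    rw [if_pos (show 0 ∈ Finset.range (n + 1) by simp),
      if_neg (show 2 * m + 1 ∉ ({2 * n} : Finset ℕ) by simp; omega)]
    norm_num
  · intro j
    have : D j (yp n : Y 𝕜) = 0 := by
      simp only [yp, D, ContinuousMap.sub_apply, ContinuousMap.one_apply, ContinuousMap.smul_apply,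
        E_coe, smul_eq_mul, Finset.mem_range, Finset.mem_singleton]
      rcases lt_trichotomy j n with h | h | h
      · rw [if_pos (by omega), if_pos (by omega), if_neg (by omega), if_neg (by omega)]
        ring
      · rw [if_pos (by omega), if_neg (by omega), if_neg (by omega), if_pos (by omega)]
        ring
      · rw [if_neg (by omega), if_neg (by omega), if_neg (by omega), if_neg (by omega)]
        ring
    rw [this]
    simp [yp]
  · simp [yp]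

lemma norm_ym (n : ℕ) : ‖mk (ym n : Y 𝕜)‖ ≤ 1 := by
  refine norm_mk_le' zero_le_one ?_ ?_ ?_ ?_ ?_ ?_
  · refine onePoint_cases ?_ ?_
    · simp [ym]
    · intro k
      simp only [ym, ContinuousMap.sub_apply, ContinuousMap.one_apply, ContinuousMap.smul_apply,
        E_coe, smul_eq_mul]
      exact norm_sign _
  · refine onePoint_cases ?_ ?_
    · simp [ym]
    · intro k
      simp only [ym, ContinuousMap.neg_apply, E_coe]
      split_ifs <;> simp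
  · intro m
    simp only [ym, ContinuousMap.sub_apply, ContinuousMap.one_apply, ContinuousMap.smul_apply,
      ContinuousMap.neg_apply, E_coe, E_infty, smul_eq_mul]
    rw [if_pos (show 0 ∈ Finset.range (n + 1) by simp),
      if_neg (show 2 * m ∉ ({2 * n + 1} : Finset ℕ) by simp; omega)]
    norm_num
  · intro m
    simp only [ym, ContinuousMap.sub_apply, ContinuousMap.one_apply, ContinuousMap.smul_apply,
      ContinuousMap.neg_apply, E_coe, E_infty, smul_eq_mul]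
    rw [if_pos (show 0 ∈ Finset.range (n + 1) by simp)]
    split_ifs <;> norm_num
  · intro j
    have : D j (ym n : Y 𝕜) = 0 := by
      simp only [ym, D, ContinuousMap.sub_apply, ContinuousMap.one_apply, ContinuousMap.smul_apply,
        ContinuousMap.neg_apply, E_coe, smul_eq_mul, Finset.mem_range, Finset.mem_singleton]
      rcases lt_trichotomy j n with h | h | h
      · rw [if_pos (by omega), if_pos (by omega), if_neg (by omega), if_neg (by omega)]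
        ring
      · rw [if_pos (by omega), if_neg (by omega), if_pos (by omega), if_neg (by omega)]
        ring
      · rw [if_neg (by omega), if_neg (by omega), if_neg (by omega), if_neg (by omega)]
        ring
    rw [this]
    simp [ym]
  · simp [ym]

lemma dist_yp (n : ℕ) : 2 ≤ ‖mk (x0 : Y 𝕜) - mk (yp n)‖ := by
  rw [← mk_sub]
  have := le_norm_mk (x0 - yp n : Y 𝕜) (.u (2 * n : ℕ))
  simpa [φ, x0, yp] using this

lemma dist_ym (n : ℕ) : 2 ≤ ‖mk (x0 : Y 𝕜) - mk (ym n)‖ := by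
  rw [← mk_sub]
  have := le_norm_mk (x0 - ym n : Y 𝕜) (.u (2 * n + 1 : ℕ))
  simpa [φ, x0, ym] using this

lemma sum_eq (N : ℕ) : ∑ n ∈ Finset.range N, ((yp n : Y 𝕜) + ym n) =
    (2 * N : 𝕜) • (x0 : Y 𝕜) - (2 : 𝕜) • ((E (Finset.range (2 * N)), 0) : Y 𝕜) := by
  induction N with
  | zero =>
    refine Prod.ext ?_ ?_
    · ext k
      revert k
      refine onePoint_cases ?_ ?_
      · simp
      · intro k; simp
    · simp
  | succ N ih =>
    rw [Finset.sum_range_succ, ih]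
    refine Prod.ext ?_ ?_
    · ext k
      revert k
      refine onePoint_cases ?_ ?_
      · simp [x0, yp, ym]
        ring
      · intro k
        simp only [x0, yp, ym, Prod.fst_add, Prod.fst_sub, Prod.smul_fst, ContinuousMap.add_apply,
          ContinuousMap.sub_apply, ContinuousMap.smul_apply, ContinuousMap.one_apply, E_coe,
          smul_eq_mul, Finset.mem_range, Finset.mem_singleton]
        push_cast
        rcases lt_or_ge k (2 * N) with h | h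
        · rw [if_pos h, if_pos (show k < 2 * (N + 1) by omega),
            if_neg (show ¬ k = 2 * N by omega), if_neg (show ¬ k = 2 * N + 1 by omega)]
          ring
        · by_cases h1 : k = 2 * N
          · rw [if_neg (show ¬ k < 2 * N by omega), if_pos (show k < 2 * (N + 1) by omega),
              if_pos h1, if_neg (show ¬ k = 2 * N + 1 by omega)]
            ring
          · by_cases h2 : k = 2 * N + 1
            · rw [if_neg (show ¬ k < 2 * N by omega), if_pos (show k < 2 * (N + 1) by omega),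
                if_neg h1, if_pos h2]
              ring
            · rw [if_neg (show ¬ k < 2 * N by omega), if_neg (show ¬ k < 2 * (N + 1) by omega),
                if_neg h1, if_neg h2]
              ring
    · simp [x0, yp, ym]

lemma norm_rest (N : ℕ) : ‖mk ((E (Finset.range (2 * N)), 0) : Y 𝕜)‖ ≤ 1 := by
  refine norm_mk_le' zero_le_one ?_ ?_ ?_ ?_ ?_ ?_
  · refine onePoint_cases ?_ ?_
    · simp
    · intro k
      simp only [E_coe]
      split_ifs <;> simp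
  · intro k; simp
  · intro m
    simp only [E_coe, E_infty, ContinuousMap.zero_apply]
    split_ifs <;> simp
  · intro m
    simp only [E_coe, E_infty, ContinuousMap.zero_apply]
    split_ifs <;> simp
  · intro j
    have : D j ((E (Finset.range (2 * N)), 0) : Y 𝕜) = 0 := by
      simp only [D, E_coe, ContinuousMap.zero_apply, Finset.mem_range]
      rcases lt_or_ge j N with h | h
      · rw [if_pos (by omega), if_pos (by omega)]; ring
      · rw [if_neg (by omega), if_neg (by omega)]; ring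
    rw [this]; simp
  · simp

/-- The point `x0` is a Delta-point. -/
lemma isDelta : IsDeltaPoint 𝕜 (mk (x0 : Y 𝕜)) := by
  refine ⟨norm_x0, ?_⟩
  rintro S ⟨f, α, hf, hα, rfl⟩ hx
  have hbdd : ∀ d ∈ ((fun y => ‖mk (x0 : Y 𝕜) - y‖) ''
      {y : X 𝕜 | ‖y‖ ≤ 1 ∧ ‖f‖ - α < RCLike.re (f y)}), d ≤ 2 := by
    rintro d ⟨z, ⟨hz, -⟩, rfl⟩
    calc ‖mk (x0 : Y 𝕜) - z‖ ≤ ‖mk (x0 : Y 𝕜)‖ + ‖z‖ := norm_sub_le _ _
      _ ≤ 1 + 1 := add_le_add norm_x0.le hz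
      _ = 2 := by norm_num
  refine le_antisymm (csSup_le ⟨_, ⟨_, hx, rfl⟩⟩ hbdd) ?_
  -- some `yp n` or `ym n` is in the slice
  by_contra hlt
  push Not at hlt
  have hno : ∀ z : X 𝕜, ‖z‖ ≤ 1 → 2 ≤ ‖mk (x0 : Y 𝕜) - z‖ → RCLike.re (f z) ≤ ‖f‖ - α := by
    intro z hz hz2
    by_contra hcon
    push Not at hcon
    have := le_csSup ⟨2, hbdd⟩ (⟨z, ⟨hz, hcon⟩, rfl⟩ : ‖mk (x0 : Y 𝕜) - z‖ ∈
      ((fun y => ‖mk (x0 : Y 𝕜) - y‖) '' {y : X 𝕜 | ‖y‖ ≤ 1 ∧ ‖f‖ - α < RCLike.re (f y)}))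
    linarith
  let mkL : Y 𝕜 →ₗ[𝕜] X 𝕜 :=
    { toFun := mk, map_add' := mk_add, map_smul' := fun c y => mk_smul c y }
  let F : Y 𝕜 →ₗ[𝕜] 𝕜 := f.toLinearMap ∘ₗ mkL
  have hsum : ∀ N : ℕ, (N : ℝ) * RCLike.re (f (mk (x0 : Y 𝕜))) ≤
      (N : ℝ) * (‖f‖ - α) + ‖f‖ := by
    intro N
    have h1 : ∑ n ∈ Finset.range N, (RCLike.re (f (mk (yp n : Y 𝕜))) +
        RCLike.re (f (mk (ym n : Y 𝕜)))) ≤ ∑ n ∈ Finset.range N, 2 * (‖f‖ - α) := by
      refine Finset.sum_le_sum fun n _ => ?_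
      have h2 := hno _ (norm_yp n) (dist_yp n)
      have h3 := hno _ (norm_ym n) (dist_ym n)
      linarith
    rw [Finset.sum_const, Finset.card_range, nsmul_eq_mul] at h1
    have h2 : ∑ n ∈ Finset.range N, (RCLike.re (f (mk (yp n : Y 𝕜))) +
        RCLike.re (f (mk (ym n : Y 𝕜)))) =
        2 * N * RCLike.re (f (mk (x0 : Y 𝕜))) -
          2 * RCLike.re (f (mk ((E (Finset.range (2 * N)), 0) : Y 𝕜))) := by
      have h3 := congrArg (fun y => RCLike.re (F y)) (sum_eq (𝕜 := 𝕜) N)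
      rw [_root_.map_sum F, _root_.map_sub F, _root_.map_smul F, _root_.map_smul F, smul_eq_mul,
        smul_eq_mul, _root_.map_sum, _root_.map_sub] at h3
      simp only [_root_.map_add F, _root_.map_add] at h3
      have e1 : ∀ z : 𝕜, RCLike.re ((2 * (N : 𝕜)) * z) = 2 * N * RCLike.re z := by
        intro z
        have : (2 * (N : 𝕜)) = ((2 * N : ℝ) : 𝕜) := by push_cast; ring
        rw [this, RCLike.re_ofReal_mul]
      have e2 : ∀ z : 𝕜, RCLike.re ((2 : 𝕜) * z) = 2 * RCLike.re z := by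
        intro z
        have : (2 : 𝕜) = ((2 : ℝ) : 𝕜) := by push_cast; ring
        rw [this, RCLike.re_ofReal_mul]
      rw [e1, e2] at h3
      exact h3
    have h4 : RCLike.re (f (mk ((E (Finset.range (2 * N)), 0) : Y 𝕜))) ≤ ‖f‖ := by
      calc RCLike.re (f (mk ((E (Finset.range (2 * N)), 0) : Y 𝕜)))
          ≤ ‖f (mk ((E (Finset.range (2 * N)), 0) : Y 𝕜))‖ := RCLike.re_le_norm _
        _ ≤ ‖f‖ * ‖mk ((E (Finset.range (2 * N)), 0) : Y 𝕜)‖ := f.le_opNorm _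
        _ ≤ ‖f‖ * 1 := by gcongr; exact norm_rest N
        _ = ‖f‖ := mul_one _
    linarith
  have hgap : 0 < RCLike.re (f (mk (x0 : Y 𝕜))) - (‖f‖ - α) := by
    have := hx.2; linarith
  obtain ⟨N, hN⟩ := exists_nat_gt (‖f‖ / (RCLike.re (f (mk (x0 : Y 𝕜))) - (‖f‖ - α)))
  rw [div_lt_iff₀ hgap] at hN
  have := hsum N
  linarith

/-- The point `x0` is extreme. -/
lemma isExtreme : IsExtremePoint 𝕜 (mk (x0 : Y 𝕜)) := by
  refine ⟨norm_x0.le, ?_⟩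
  have key : ∀ c d : 𝕜, ∀ t : ℝ, ‖c‖ ≤ 1 → ‖d‖ ≤ 1 → 0 < t → t < 1 →
      1 = (t : 𝕜) * c + ((1 - t : ℝ) : 𝕜) * d → c = 1 := by
    intro c d t hc hd ht0 ht1 h
    have h1 := congrArg RCLike.re h
    rw [RCLike.one_re, map_add, RCLike.re_ofReal_mul, RCLike.re_ofReal_mul] at h1
    have hc1 : RCLike.re c ≤ 1 := (RCLike.re_le_norm c).trans hc
    have hd1 : RCLike.re d ≤ 1 := (RCLike.re_le_norm d).trans hd
    have hc2 : RCLike.re c = 1 := by
      by_contra hne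
      have : RCLike.re c < 1 := lt_of_le_of_ne hc1 hne
      nlinarith
    have hc3 : RCLike.im c = 0 := by
      have h2 := RCLike.norm_sq_eq_def (z := c)
      rw [hc2] at h2
      have h3 : ‖c‖ ^ 2 ≤ 1 := by
        have := norm_nonneg c
        nlinarith
      have h4 : RCLike.im c * RCLike.im c ≤ 0 := by linarith
      nlinarith [mul_self_nonneg (RCLike.im c)]
    apply RCLike.ext
    · rw [hc2, RCLike.one_re]
    · rw [hc3, RCLike.one_im]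
  have main : ∀ (y z : X 𝕜) (t : ℝ), ‖y‖ ≤ 1 → ‖z‖ ≤ 1 → 0 < t → t < 1 →
      mk (x0 : Y 𝕜) = (t : 𝕜) • y + ((1 - t : ℝ) : 𝕜) • z → y = mk (x0 : Y 𝕜) := by
    intro y z t hy hz ht0 ht1 h
    obtain ⟨y, rfl⟩ := mk_surj y
    obtain ⟨z, rfl⟩ := mk_surj z
    rw [← mk_smul, ← mk_smul, ← mk_add] at h
    have h1 := mk_inj h
    have hu : ∀ k, y.1 k = 1 := by
      intro k
      have h2 := congrArg (fun w : Y 𝕜 => w.1 k) h1
      simp only [x0, Prod.fst_add, Prod.smul_fst, ContinuousMap.add_apply,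
        ContinuousMap.smul_apply, ContinuousMap.one_apply, smul_eq_mul] at h2
      exact key _ _ t ((le_norm_mk y (.u k)).trans hy) ((le_norm_mk z (.u k)).trans hz) ht0 ht1 h2
    have hD : ∀ j, y.2 (j : ℕ) = y.2 (j + 1 : ℕ) := by
      intro j
      have h2 := (r_bound y j).trans hy
      rw [hu, norm_one] at h2
      have h3 : D j y = 0 := norm_le_zero_iff.1 (by linarith)
      simp only [D, hu, sub_self, mul_zero, sub_zero] at h3
      exact sub_eq_zero.1 h3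
    have hinf : y.2 ∞ = 0 := by
      have h2 := (s_bound y).trans hy
      rw [hu, norm_one] at h2
      exact norm_le_zero_iff.1 (by linarith)
    have hconst : ∀ j : ℕ, y.2 (j : ℕ) = y.2 (0 : ℕ) := by
      intro j
      induction j with
      | zero => rfl
      | succ j ih => rw [← ih, ← hD j]
    have hlim : Tendsto (fun j : ℕ => y.2 (j : OnePoint ℕ)) atTop (𝓝 (y.2 ∞)) :=
      (OnePoint.continuous_iff_from_nat y.2).1 y.2.continuous
    have h0 : y.2 (0 : ℕ) = 0 := by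
      simp only [hconst, hinf] at hlim
      exact tendsto_nhds_unique tendsto_const_nhds hlim
    have hy0 : y = x0 := by
      refine Prod.ext ?_ ?_
      · ext k; rw [hu]; rfl
      · ext k
        revert k
        refine onePoint_cases ?_ ?_
        · rw [hinf]; rfl
        · intro k; rw [hconst, h0]; rfl
    rw [hy0]
  intro y z t hy hz ht0 ht1 h
  refine ⟨main y z t hy hz ht0 ht1 h, main z y (1 - t) hz hy (by linarith) (by linarith) ?_⟩
  rw [h, add_comm]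
  congr 3
  ring

/-- The point `x0` is not a super Delta-point. -/
lemma not_isSuper : ¬ IsSuperDeltaPoint 𝕜 (mk (x0 : Y 𝕜)) := by
  rintro ⟨-, h⟩
  let f1 : StrongDual 𝕜 (X 𝕜) := (lp.evalCLM 𝕜 (fun _ : Idx 𝕜 => 𝕜) ⊤ (.u ∞)).comp (X 𝕜).subtypeL
  let f2 : StrongDual 𝕜 (X 𝕜) :=
    (lp.evalCLM 𝕜 (fun _ : Idx 𝕜 => 𝕜) ⊤ (.v (0 : ℕ))).comp (X 𝕜).subtypeL
  have hf1 : ∀ y : Y 𝕜, f1 (mk y) = y.1 ∞ := fun y => rfl
  have hf2 : ∀ y : Y 𝕜, f2 (mk y) = y.2 (0 : ℕ) := fun y => rfl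
  set O : Set (WeakSpace 𝕜 (X 𝕜)) :=
    {w | 1 - 1 / 50 < RCLike.re (f1 ((toWeakSpace 𝕜 (X 𝕜)).symm w))} ∩
    {w | ‖f2 ((toWeakSpace 𝕜 (X 𝕜)).symm w)‖ < 1 / 50} with hO
  have hOopen : IsOpen O := by
    refine IsOpen.inter ?_ ?_
    · exact isOpen_lt continuous_const
        (RCLike.continuous_re.comp (R270.WeakNhd.continuous_eval f1))
    · exact isOpen_lt (continuous_norm.comp (R270.WeakNhd.continuous_eval f2)) continuous_const
  have hmem : mk (x0 : Y 𝕜) ∈ Metric.closedBall 0 1 ∩ toWeakSpace 𝕜 (X 𝕜) ⁻¹' O := by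
    refine ⟨by simpa using (norm_x0 (𝕜 := 𝕜)).le, ?_, ?_⟩
    · change 1 - 1 / 50 < RCLike.re (f1 (mk (x0 : Y 𝕜)))
      rw [hf1]
      simp only [x0, ContinuousMap.one_apply, RCLike.one_re]
      norm_num
    · change ‖f2 (mk (x0 : Y 𝕜))‖ < 1 / 50
      rw [hf2]
      simp [x0]
  have h2 := h _ ⟨O, hOopen, rfl⟩ hmem
  have hle : sSup ((fun y => ‖mk (x0 : Y 𝕜) - y‖) ''
      (Metric.closedBall 0 1 ∩ toWeakSpace 𝕜 (X 𝕜) ⁻¹' O)) ≤ 3 / 2 := by
    refine csSup_le ⟨_, ⟨_, hmem, rfl⟩⟩ ?_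
    rintro d ⟨z, ⟨hzB, hzO1, hzO2⟩, rfl⟩
    obtain ⟨y, rfl⟩ := mk_surj z
    have hy : ‖mk y‖ ≤ 1 := by simpa using hzB
    change 1 - 1 / 50 < RCLike.re (f1 (mk y)) at hzO1
    change ‖f2 (mk y)‖ < 1 / 50 at hzO2
    rw [hf1] at hzO1
    rw [hf2] at hzO2
    have hinf : ‖y.1 ∞‖ ≤ 1 := (le_norm_mk y (.u ∞)).trans hy
    have hinf2 : 1 - 1 / 50 < ‖y.1 ∞‖ := lt_of_lt_of_le hzO1 (RCLike.re_le_norm _)
    have hone : ‖1 - y.1 ∞‖ ≤ 1 / 5 := by
      have h3 : ‖1 - y.1 ∞‖ ^ 2 ≤ (1 / 5) ^ 2 := by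
        have h4 := RCLike.norm_sq_eq_def (z := 1 - y.1 ∞)
        have h5 := RCLike.norm_sq_eq_def (z := y.1 ∞)
        rw [map_sub, map_sub, RCLike.one_re, RCLike.one_im] at h4
        have h6 : ‖y.1 ∞‖ ^ 2 ≤ 1 := by
          have := norm_nonneg (y.1 ∞)
          nlinarith
        nlinarith
      exact (abs_le_of_sq_le_sq' h3 (by norm_num)).2
    simp only
    rw [← mk_sub]
    refine norm_mk_le' (by norm_num) ?_ ?_ ?_ ?_ ?_ ?_
    · refine onePoint_cases ?_ ?_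
      · change ‖1 - y.1 ∞‖ ≤ 3 / 2
        linarith
      · intro k
        change ‖1 - y.1 (k : ℕ)‖ ≤ 3 / 2
        obtain ⟨m, hm | hm⟩ := Nat.even_or_odd' k
        · have h3 := (le_norm_mk y (.p m)).trans hy
          change ‖y.1 ∞ - y.1 (2 * m : ℕ) - y.2 (0 : ℕ)‖ ≤ 1 at h3
          rw [← hm] at h3
          calc ‖1 - y.1 (k : ℕ)‖ = ‖(1 - y.1 ∞) + (y.1 ∞ - y.1 (k : ℕ) - y.2 (0 : ℕ)) +
                y.2 (0 : ℕ)‖ := by congr 1; ring
            _ ≤ ‖1 - y.1 ∞‖ + ‖y.1 ∞ - y.1 (k : ℕ) - y.2 (0 : ℕ)‖ + ‖y.2 (0 : ℕ)‖ :=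
                norm_add₃_le
            _ ≤ 3 / 2 := by linarith
        · have h3 := (le_norm_mk y (.q m)).trans hy
          change ‖y.1 ∞ - y.1 (2 * m + 1 : ℕ) + y.2 (0 : ℕ)‖ ≤ 1 at h3
          rw [← hm] at h3
          calc ‖1 - y.1 (k : ℕ)‖ = ‖(1 - y.1 ∞) + (y.1 ∞ - y.1 (k : ℕ) + y.2 (0 : ℕ)) -
                y.2 (0 : ℕ)‖ := by congr 1; ring
            _ ≤ ‖(1 - y.1 ∞) + (y.1 ∞ - y.1 (k : ℕ) + y.2 (0 : ℕ))‖ + ‖y.2 (0 : ℕ)‖ :=
                norm_sub_le _ _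
            _ ≤ ‖1 - y.1 ∞‖ + ‖y.1 ∞ - y.1 (k : ℕ) + y.2 (0 : ℕ)‖ + ‖y.2 (0 : ℕ)‖ := by
                gcongr; exact norm_add_le _ _
            _ ≤ 3 / 2 := by linarith
    · intro k
      change ‖0 - y.2 k‖ ≤ 3 / 2
      rw [zero_sub, norm_neg]
      have := (le_norm_mk y (.v k)).trans hy
      change ‖y.2 k‖ ≤ 1 at this
      linarith
    · intro m
      have h3 := (le_norm_mk y (.p m)).trans hy
      change ‖y.1 ∞ - y.1 (2 * m : ℕ) - y.2 (0 : ℕ)‖ ≤ 1 at h3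
      change ‖(1 - y.1 ∞) - (1 - y.1 (2 * m : ℕ)) - (0 - y.2 (0 : ℕ))‖ ≤ 3 / 2
      have e : (1 - y.1 ∞) - (1 - y.1 (2 * m : ℕ)) - (0 - y.2 (0 : ℕ)) =
          -(y.1 ∞ - y.1 (2 * m : ℕ) - y.2 (0 : ℕ)) := by ring
      rw [e, norm_neg]
      linarith
    · intro m
      have h3 := (le_norm_mk y (.q m)).trans hy
      change ‖y.1 ∞ - y.1 (2 * m + 1 : ℕ) + y.2 (0 : ℕ)‖ ≤ 1 at h3
      change ‖(1 - y.1 ∞) - (1 - y.1 (2 * m + 1 : ℕ)) + (0 - y.2 (0 : ℕ))‖ ≤ 3 / 2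
      have e : (1 - y.1 ∞) - (1 - y.1 (2 * m + 1 : ℕ)) + (0 - y.2 (0 : ℕ)) =
          -(y.1 ∞ - y.1 (2 * m + 1 : ℕ) + y.2 (0 : ℕ)) := by ring
      rw [e, norm_neg]
      linarith
    · intro j
      have h3 := (r_bound y j).trans hy
      have e : D j (x0 - y : Y 𝕜) = - D j y := by
        simp only [D, x0, Prod.fst_sub, Prod.snd_sub, ContinuousMap.sub_apply,
          ContinuousMap.one_apply, ContinuousMap.zero_apply]
        ring
      rw [e, norm_neg]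
      change ‖1 - y.1 ∞‖ + ‖D j y‖ ≤ 3 / 2
      linarith
    · have h3 := (s_bound y).trans hy
      change ‖1 - y.1 ∞‖ + ‖0 - y.2 ∞‖ ≤ 3 / 2
      rw [zero_sub, norm_neg]
      linarith
  rw [h2] at hle
  norm_num at hle

end example_space

/-- **Answer to Q1 (negative).** Over `𝕜 = ℝ` and over `𝕜 = ℂ` there are a Banach space `X` and an
extreme point `x` of its closed unit ball such that `x` is a Delta-point, but `x` is neither a ccs
Delta-point nor a super Delta-point. -/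
theorem result (𝕜 : Type w) [RCLike 𝕜] :
    ∃ (X : Type w) (_ : NormedAddCommGroup X) (_ : NormedSpace 𝕜 X) (_ : CompleteSpace X) (x : X),
      IsExtremePoint 𝕜 x ∧ IsDeltaPoint 𝕜 x ∧ ¬ IsCcsDeltaPoint 𝕜 x ∧ ¬ IsSuperDeltaPoint 𝕜 x :=
  ⟨X 𝕜, inferInstance, inferInstance, inferInstance, mk x0, isExtreme, isDelta,
    fun h => not_isSuper h.isSuper, not_isSuper⟩

end Pool.Agent.Results.MP_0f3a14_an.ExtremeDelta
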